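import Pool.Agent.Lib.MP_688fd0_co.OSF.Iface2

/-!
SMALLGEN2: few elements of a generating set generate a finite group.
-/

set_option autoImplicit false

namespace Pool.Agent.Lib.MP_688fd0_co.OSF.H87

open Finset

universe u

/-- a proper divisor has fewer prime factors (with multiplicity) -/
lemma len_lt {a b c : ℕ} (ha : a ≠ 0) (h : a = c * b) (hc : c ≠ 1) :
    b.primeFactorsList.length + 1 ≤ a.primeFactorsList.length := by
  have hc0 : c ≠ 0 := by rintro rfl; simp at h; exact ha h
  have hb0 : b ≠ 0 := by rintro rfl; simp at h; exact ha h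
  have h1 := (Nat.perm_primeFactorsList_mul hc0 hb0).length_eq
  rw [← h, List.length_append] at h1
  have h2 : c.primeFactorsList ≠ [] := by
    intro h3
    rcases (Nat.primeFactorsList_eq_nil c).1 h3 with h4 | h4
    · exact hc0 h4
    · exact hc h4
  have h3 := List.length_pos_iff.2 h2
  omega

theorem ext2 (G : Type u) [Group G] [Finite G] (A : Set G)
    (hA : Subgroup.closure A = ⊤) : ∀ (k : ℕ) (l : List G), (∀ g ∈ l, g ∈ A) →
    (Subgroup.closure {x | x ∈ l}).index.primeFactorsList.length ≤ k →
    ∃ l' : List G, (∀ g ∈ l', g ∈ A) ∧ l'.length ≤ l.length + k ∧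
      Subgroup.closure {x | x ∈ l'} = ⊤ := by
  intro k
  induction k with
  | zero =>
    intro l hl hk
    refine ⟨l, hl, by omega, ?_⟩
    have h0 : (Subgroup.closure {x | x ∈ l}).index.primeFactorsList = [] :=
      List.length_eq_zero_iff.1 (by omega)
    rcases (Nat.primeFactorsList_eq_nil _).1 h0 with h | h
    · exact absurd h Subgroup.index_ne_zero_of_finite
    · exact Subgroup.index_eq_one.1 h
  | succ k ih =>
    intro l hl hk
    by_cases hA' : A ⊆ Subgroup.closure {x | x ∈ l}
    · refine ⟨l, hl, by omega, ?_⟩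
      rw [eq_top_iff, ← hA]
      exact (Subgroup.closure_le _).2 hA'
    · obtain ⟨a, ha, hal⟩ := Set.not_subset.1 hA'
      have hle : Subgroup.closure {x | x ∈ l} ≤ Subgroup.closure {x | x ∈ a :: l} :=
        Subgroup.closure_mono fun x hx => List.mem_cons_of_mem a hx
      have hne : (Subgroup.closure {x | x ∈ l}).relIndex (Subgroup.closure {x | x ∈ a :: l}) ≠ 1 := by
        intro h
        rw [Subgroup.relIndex_eq_one] at h
        exact hal (h (Subgroup.subset_closure (List.mem_cons_self ..)))
      have hmul := Subgroup.relIndex_mul_index hle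
      have h1 := len_lt Subgroup.index_ne_zero_of_finite hmul.symm hne
      obtain ⟨l', h2, h3, h4⟩ := ih (a :: l) (by
        intro g hg
        rcases List.mem_cons.1 hg with rfl | hg
        · exact ha
        · exact hl g hg) (by omega)
      refine ⟨l', h2, ?_, h4⟩
      simp only [List.length_cons] at h3
      omega

/-- **SMALLGEN2** -/
theorem smallgen2 : Smallgen2S.{u} := by
  intro G _ _ A hA
  obtain ⟨l, h1, h2, h3⟩ := ext2 G A hA (Nat.card G).primeFactorsList.length [] (by simp) (by
    simp)
  exact ⟨l, h1, by simpa using h2, h3⟩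

end Pool.Agent.Lib.MP_688fd0_co.OSF.H87
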